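import Pool.Agent.W622.BK.Stm

set_option autoImplicit false

namespace Pool.Agent.W554.BK

open Pool.Agent.W622.BK Module

universe u

theorem t_BASE : Pool.Agent.W622.BK.S_BASE.{u} := by
  intro k _ E _ _ _ R X hR hdec T hT hcyc
  let oE : G k E 1 ≃ₗ[k] (E →ₗ[k] k) := (cur k E).trans (LinearEquiv.congrRight (ev0 k E))
  have hoE : ∀ ω : G k E 1, oE ω = one k E ω := fun ω => rfl
  let T' : E →ₗ[k] E →ₗ[k] (E →ₗ[k] k) := T.compr₂ oE.toLinearMap
  let τ : E →ₗ[k] E →ₗ[k] E →ₗ[k] k := (LinearMap.lflip.toLinearMap ∘ₗ T').flip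
  have hτ : ∀ a e e', τ a e e' = ev0 k E (cur k E (T e e') a) := fun a e e' => rfl
  obtain ⟨s, p, hsp, hs, hp, hp'⟩ := hdec τ (by
    intro e e'
    have : (τ.flip e).flip e' = one k E (T e e') := by
      ext a
      rfl
    rw [this]
    exact hT e e') (by
    exact hcyc (ev0 k E).toLinearMap)
  let p' : E →ₗ[k] E →ₗ[k] E →ₗ[k] k := LinearMap.lflip.toLinearMap ∘ₗ p.flip
  have hp'' : ∀ e e' a, p' e e' a = p a e e' := fun e e' a => rfl
  let s' : E →ₗ[k] E →ₗ[k] E →ₗ[k] k := (LinearMap.lflip.toLinearMap ∘ₗ s.flip).flip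
  have hs'' : ∀ e e' a, s' e' e a = s a e e' := fun e e' a => rfl
  let P : E →ₗ[k] E →ₗ[k] G k E 1 := p'.compr₂ oE.symm.toLinearMap
  let S : E →ₗ[k] G k E 2 := (cur k E).symm.toLinearMap ∘ₗ (s'.compr₂ oE.symm.toLinearMap)
  have hP : ∀ e e', oE (P e e') = p' e e' := fun e e' => oE.apply_symm_apply _
  have hS : ∀ e e', oE (cur k E (S e') e) = s' e' e := by
    intro e e'
    have : cur k E (S e') = (s'.compr₂ oE.symm.toLinearMap) e' := (cur k E).apply_symm_apply _
    rw [this]
    exact oE.apply_symm_apply _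
  refine ⟨S, P, ?_, ?_, ?_, ?_⟩
  · intro e'
    have hr := hs e'
    have halt := hR _ hr.1
    have hskew : ∀ e a, s a e e' = - s e a e' := by
      intro e a
      have h1 := halt (a + e)
      have h2 := halt a
      have h3 := halt e
      simp only [LinearMap.compr₂_apply, LinearMap.applyₗ_apply_apply, map_add,
        LinearMap.add_apply] at h1 h2 h3
      rw [h2, h3] at h1
      linear_combination h1
    refine ⟨fun e => ?_, fun φ => ?_⟩
    · show one k E (cur k E (S e') e) ∈ X
      rw [← hoE, hS]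
      have : s' e' e = - (s.compr₂ (LinearMap.applyₗ e')) e := by
        ext a
        rw [hs'', hskew]
        rfl
      rw [this]
      exact X.neg_mem (hr.2 e)
    · have hφ : ∀ x : G k E 0, φ x = φ ((ev0 k E).symm 1) * ev0 k E x := by
        intro x
        have : x = (ev0 k E x) • (ev0 k E).symm 1 := by
          apply (ev0 k E).injective
          rw [map_smul, LinearEquiv.apply_symm_apply, smul_eq_mul, mul_one]
        conv_lhs => rw [this]
        rw [map_smul, smul_eq_mul, mul_comm]
      have : (cc k E (S e')).compr₂ φ =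
          (-(φ ((ev0 k E).symm 1))) • (s.compr₂ (LinearMap.applyₗ e')) := by
        ext e a
        have h1 : (cc k E (S e')).compr₂ φ e a = φ (cur k E (cur k E (S e') e) a) := rfl
        have h2 : ev0 k E (cur k E (cur k E (S e') e) a) = s a e e' := by
          have := LinearMap.congr_fun (hS e e') a
          rw [hs''] at this
          exact this
        rw [h1, hφ, h2, hskew]
        simp only [LinearMap.smul_apply, LinearMap.compr₂_apply, LinearMap.applyₗ_apply_apply,
          smul_eq_mul]
        ring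
      rw [this]
      exact R.smul_mem _ hr.1
  · intro e e'
    show one k E (P e e') ∈ X
    rw [← hoE, hP]
    exact hp' e e'
  · intro φ
    have : P.compr₂ φ = p ((evalEquiv k E).symm (φ ∘ₗ oE.symm.toLinearMap)) := by
      ext e e'
      have h1 : P.compr₂ φ e e' = (φ ∘ₗ oE.symm.toLinearMap) (p' e e') := rfl
      have h2 : (p' e e') ((evalEquiv k E).symm (φ ∘ₗ oE.symm.toLinearMap)) =
          (φ ∘ₗ oE.symm.toLinearMap) (p' e e') :=
        Module.apply_evalEquiv_symm_apply (R := k) (M := E) (p' e e')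
          (φ ∘ₗ oE.symm.toLinearMap)
      rw [h1, ← h2, hp'']
    rw [this]
    exact hp _
  · intro e e'
    have h1 : oE (cur k E (S e') e + P e e') = s' e' e + p' e e' :=
      (map_add oE (cur k E (S e') e) (P e e')).trans (congrArg₂ (· + ·) (hS e e') (hP e e'))
    have h2 : oE (T e e') = s' e' e + p' e e' := by
      refine LinearMap.ext fun a => ?_
      rw [LinearMap.add_apply, hs'', hp'']
      exact hsp a e e'
    exact oE.injective (h2.trans h1.symm)

end Pool.Agent.W554.BK
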